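import Pool.Agent.H31.MA2

open Pool.Agent.H31.MA

universe u v

theorem Pool.Agent.Results.MP_d44cd8_gt.Main.result :
    (∃ (X : Type) (_ : TopologicalSpace X) (x₀ : X), T1Space X ∧ HasMetricAnalog.{0, v} X x₀ ∧
      ¬Quasimetrizable X) ∧
    ∀ (X : Type u) [TopologicalSpace X] [T0Space X] (x₀ : X), Quasimetrizable X →
      HasMetricAnalog.{u, v} X x₀ :=
  ⟨⟨ZF, inferInstance, .inf fun _ _ => .inl 0, inferInstance, analog_Z _, not_quasi⟩,
    fun _ _ _ x₀ h => analog_q h x₀⟩
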